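import Pool.Agent.Helper79.PNT.Main
import Pool.Agent.Helper44.MertensProd
import Pool.Agent.Helper13.TW.Wirs

/-!
# Mean values of non-negative multiplicative functions below 1

`sum_mult_le`: if `0 ≤ g p ≤ 1`, and `g p ≤ 1 - κ` for the large primes `p` of one residue class,
then the sum of `∏_{p | m} g p` over the squarefree `m ≤ N` is at most `C N (log N) ^ (-δ)`, with
`C` and `δ` independent of `g`.
-/

set_option autoImplicit false

open Finset Filter

namespace Pool.Agent.Helper94.TW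

/-- the primes of the class `a` modulo `M`, above `T` and up to `N` -/
def cls (M a T N : ℕ) : Finset ℕ :=
  (Finset.Icc 1 N).filter (fun p => p.Prime ∧ T < p ∧ p % M = a % M)

/-- many primes of a residue class in dyadic intervals -/
theorem dyadic_theta {M a : ℕ} (hM : 0 < M) (ha : Nat.Coprime a M) (T : ℕ) :
    ∃ c : ℝ, 0 < c ∧ ∃ j0 : ℕ, ∀ j : ℕ, j0 ≤ j →
      c * 2 ^ j ≤ ∑ p ∈ (Finset.Ioc (2 ^ j) (2 ^ (j + 1))).filter
        (fun p : ℕ => p.Prime ∧ T < p ∧ p % M = a % M), Real.log p := by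
  have : NeZero M := ⟨hM.ne'⟩
  have hu : IsUnit (a : ZMod M) := (ZMod.isUnit_iff_coprime a M).mpr ha
  have h := Pool.Agent.Helper79.PNT.theta_ap hu
  set φ : ℝ := (M.totient : ℝ)⁻¹ with hφ
  have hφ0 : 0 < φ := by
    have := Nat.totient_pos.mpr hM
    positivity
  set S : ℝ → ℝ := fun x => ∑ p ∈ (Finset.Icc 1 ⌊x⌋₊).filter
      (fun p : ℕ => p.Prime ∧ (p : ZMod M) = a), Real.log p with hS
  have h1 : ∀ᶠ x : ℝ in atTop, φ * (7 / 8) < S x / x ∧ S x / x < φ * (9 / 8) := by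
    have h2 := h.eventually (Ioo_mem_nhds (a := φ * (7 / 8)) (b := φ * (9 / 8))
      (by linarith) (by linarith))
    filter_upwards [h2] with x hx
    exact hx
  obtain ⟨X, hX⟩ := eventually_atTop.mp h1
  obtain ⟨j1, hj1⟩ := pow_unbounded_of_one_lt (max X T) (by norm_num : (1 : ℝ) < 2)
  refine ⟨φ / 2, by positivity, j1, fun j hj => ?_⟩
  have h2j : (2 : ℝ) ^ j1 ≤ 2 ^ j := pow_le_pow_right₀ (by norm_num) hj
  have hXj : X ≤ (2 : ℝ) ^ j := ((le_max_left _ _).trans hj1.le).trans h2j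
  have hTj : (T : ℝ) < (2 : ℝ) ^ j := ((le_max_right _ _).trans_lt hj1).trans_le h2j
  have hTj' : T < 2 ^ j := by exact_mod_cast hTj
  have hp : (0 : ℝ) < (2 : ℝ) ^ j := by positivity
  have hXj1 : X ≤ (2 : ℝ) ^ (j + 1) := by
    rw [pow_succ]; linarith
  have hA := (hX _ hXj).2
  have hB := (hX _ hXj1).1
  rw [div_lt_iff₀ hp] at hA
  rw [lt_div_iff₀ (by positivity)] at hB
  have hf : ∀ k : ℕ, ⌊(2 : ℝ) ^ k⌋₊ = 2 ^ k := by
    intro k
    have : ((2 : ℝ) ^ k) = ((2 ^ k : ℕ) : ℝ) := by push_cast; rfl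
    rw [this, Nat.floor_natCast]
  have hsplit : S ((2 : ℝ) ^ (j + 1)) = S ((2 : ℝ) ^ j) +
      ∑ p ∈ (Finset.Ioc (2 ^ j) (2 ^ (j + 1))).filter
        (fun p : ℕ => p.Prime ∧ T < p ∧ p % M = a % M), Real.log p := by
    simp only [hS, hf]
    rw [← Finset.sum_union]
    · apply Finset.sum_congr _ (fun _ _ => rfl)
      ext p
      simp only [Finset.mem_union, Finset.mem_filter, Finset.mem_Icc, Finset.mem_Ioc]
      have e : ((p : ZMod M) = a) ↔ p % M = a % M := by
        rw [ZMod.natCast_eq_natCast_iff]; rfl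
      rw [e]
      have hle : 2 ^ j ≤ 2 ^ (j + 1) := Nat.pow_le_pow_right (by norm_num) (by omega)
      constructor
      · rintro ⟨⟨h3, h4⟩, h5, h6⟩
        by_cases h7 : p ≤ 2 ^ j
        · left; exact ⟨⟨h3, h7⟩, h5, h6⟩
        · right; exact ⟨⟨by omega, h4⟩, h5, by omega, h6⟩
      · rintro (⟨⟨h3, h4⟩, h5, h6⟩ | ⟨⟨h3, h4⟩, h5, h6, h7⟩)
        · exact ⟨⟨h3, by omega⟩, h5, h6⟩
        · exact ⟨⟨by omega, h4⟩, h5, h7⟩
    · rw [Finset.disjoint_left]
      intro p hp1 hp2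
      simp only [Finset.mem_filter, Finset.mem_Icc, Finset.mem_Ioc] at hp1 hp2
      omega
  rw [pow_succ] at hB
  rw [pow_succ] at hsplit
  nlinarith [hA, hB, hsplit]

/-- lower bound in Mertens' theorem for a residue class -/
theorem mertens_class {M a : ℕ} (hM : 0 < M) (ha : Nat.Coprime a M) (T : ℕ) :
    ∃ c C : ℝ, 0 < c ∧ ∀ N : ℕ, 2 ≤ N →
      c * Real.log (Real.log N) - C ≤ ∑ p ∈ cls M a T N, (1 : ℝ) / p := by
  obtain ⟨c, hc, j0, hj⟩ := dyadic_theta hM ha T
  refine ⟨c / 2, c / 2 * Real.log (j0 + 1), by positivity, fun N hN => ?_⟩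
  set J := Nat.log 2 N with hJ
  have hJN : 2 ^ J ≤ N := Nat.pow_log_le_self 2 (by omega)
  have hNJ : N < 2 ^ (J + 1) := Nat.lt_pow_succ_log_self (by norm_num) N
  have hl2 : Real.log 2 < 1 := by
    have := Real.log_two_lt_d9; linarith
  have hl20 : 0 < Real.log 2 := Real.log_pos (by norm_num)
  have hlogN : 0 < Real.log N := Real.log_pos (by exact_mod_cast (by omega : 1 < N))
  -- loglog N ≤ log (J + 1)
  have h1 : Real.log (Real.log N) ≤ Real.log (J + 1) := by
    apply Real.log_le_log hlogN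
    have h2 : Real.log N ≤ Real.log ((2 : ℝ) ^ (J + 1)) := by
      apply Real.log_le_log (by exact_mod_cast (by omega : 0 < N))
      exact_mod_cast hNJ.le
    rw [Real.log_pow] at h2
    push_cast at h2
    have h3 : ((J : ℝ) + 1) * Real.log 2 ≤ (J + 1) * 1 := by
      apply mul_le_mul_of_nonneg_left hl2.le (by positivity)
    linarith
  -- one dyadic block
  have h2 : ∀ j : ℕ, j0 ≤ j → c / 2 * (1 / ((j : ℝ) + 1)) ≤
      ∑ p ∈ (Finset.Ioc (2 ^ j) (2 ^ (j + 1))).filter
        (fun p : ℕ => p.Prime ∧ T < p ∧ p % M = a % M), (1 : ℝ) / p := by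
    intro j hjj
    have h3 := hj j hjj
    have h4 : ∑ p ∈ (Finset.Ioc (2 ^ j) (2 ^ (j + 1))).filter
        (fun p : ℕ => p.Prime ∧ T < p ∧ p % M = a % M), Real.log p ≤
        ∑ p ∈ (Finset.Ioc (2 ^ j) (2 ^ (j + 1))).filter
        (fun p : ℕ => p.Prime ∧ T < p ∧ p % M = a % M),
          (2 : ℝ) ^ (j + 1) * (j + 1) * ((1 : ℝ) / p) := by
      apply Finset.sum_le_sum
      intro p hp
      simp only [Finset.mem_filter, Finset.mem_Ioc] at hp
      have hp0 : (0 : ℝ) < p := by exact_mod_cast hp.2.1.pos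
      have hpj : (p : ℝ) ≤ 2 ^ (j + 1) := by exact_mod_cast hp.1.2
      have h5 : Real.log p ≤ (j + 1) := by
        calc Real.log p ≤ Real.log ((2 : ℝ) ^ (j + 1)) := Real.log_le_log hp0 hpj
          _ = ((j : ℝ) + 1) * Real.log 2 := by rw [Real.log_pow]; push_cast; ring
          _ ≤ (j + 1) * 1 := by apply mul_le_mul_of_nonneg_left hl2.le (by positivity)
          _ = j + 1 := by ring
      calc Real.log p ≤ (j : ℝ) + 1 := h5
        _ = p * (j + 1) * (1 / p) := by field_simp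
        _ ≤ _ := by
          apply mul_le_mul_of_nonneg_right _ (by positivity)
          apply mul_le_mul_of_nonneg_right hpj (by positivity)
    rw [← Finset.mul_sum] at h4
    set U := ∑ p ∈ (Finset.Ioc (2 ^ j) (2 ^ (j + 1))).filter
        (fun p : ℕ => p.Prime ∧ T < p ∧ p % M = a % M), (1 : ℝ) / p with hU
    have h6 : c * 2 ^ j ≤ (2 : ℝ) ^ (j + 1) * (j + 1) * U := h3.trans h4
    rw [pow_succ] at h6
    have h7 : (0 : ℝ) < 2 ^ j := by positivity
    have h8 : (0 : ℝ) < (j : ℝ) + 1 := by positivity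
    have h9 : c ≤ 2 * (j + 1) * U := by
      by_contra hcon
      push Not at hcon
      have := mul_lt_mul_of_pos_right hcon h7
      nlinarith
    rw [mul_one_div, div_le_iff₀ h8]
    nlinarith
  -- induction over the blocks
  have h3 : ∀ J : ℕ, c / 2 * (Real.log (J + 1) - Real.log (j0 + 1)) ≤
      ∑ p ∈ cls M a T (2 ^ J), (1 : ℝ) / p := by
    intro J
    induction J with
    | zero =>
      have h4 : (0 : ℝ) ≤ ∑ p ∈ cls M a T (2 ^ 0), (1 : ℝ) / p :=
        Finset.sum_nonneg fun p _ => by positivity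
      refine le_trans ?_ h4
      have h5 : Real.log ((0 : ℕ) + 1) ≤ Real.log ((j0 : ℝ) + 1) := by
        apply Real.log_le_log (by norm_num)
        push_cast
        have : (0 : ℝ) ≤ j0 := Nat.cast_nonneg _
        linarith
      exact mul_nonpos_of_nonneg_of_nonpos (by positivity) (by linarith)
    | succ J ih =>
      by_cases hJJ : j0 ≤ J
      · have h4 : cls M a T (2 ^ (J + 1)) = cls M a T (2 ^ J) ∪
            (Finset.Ioc (2 ^ J) (2 ^ (J + 1))).filter
              (fun p : ℕ => p.Prime ∧ T < p ∧ p % M = a % M) := by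
          unfold cls
          ext p
          simp only [Finset.mem_union, Finset.mem_filter, Finset.mem_Icc, Finset.mem_Ioc]
          have hle : 2 ^ J ≤ 2 ^ (J + 1) := Nat.pow_le_pow_right (by norm_num) (by omega)
          constructor
          · rintro ⟨⟨h3, h4⟩, h5, h6, h7⟩
            by_cases h8 : p ≤ 2 ^ J
            · left; exact ⟨⟨h3, h8⟩, h5, h6, h7⟩
            · right; exact ⟨⟨by omega, h4⟩, h5, h6, h7⟩
          · rintro (⟨⟨h3, h4⟩, h5, h6, h7⟩ | ⟨⟨h3, h4⟩, h5, h6, h7⟩)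
            · exact ⟨⟨h3, by omega⟩, h5, h6, h7⟩
            · exact ⟨⟨by omega, h4⟩, h5, h6, h7⟩
        have h5 : Disjoint (cls M a T (2 ^ J)) ((Finset.Ioc (2 ^ J) (2 ^ (J + 1))).filter
              (fun p : ℕ => p.Prime ∧ T < p ∧ p % M = a % M)) := by
          rw [Finset.disjoint_left]
          intro p hp1 hp2
          simp only [cls, Finset.mem_filter, Finset.mem_Icc, Finset.mem_Ioc] at hp1 hp2
          omega
        rw [h4, Finset.sum_union h5]
        have h6 := h2 J hJJ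
        have h7 : Real.log (((J + 1 : ℕ) : ℝ) + 1) - Real.log ((J : ℝ) + 1) ≤
            1 / ((J : ℝ) + 1) := by
          rw [← Real.log_div (by positivity) (by positivity)]
          have h8 : (((J + 1 : ℕ) : ℝ) + 1) / ((J : ℝ) + 1) = 1 + 1 / ((J : ℝ) + 1) := by
            push_cast
            field_simp
          rw [h8]
          have h9 := Real.log_le_sub_one_of_pos (x := 1 + 1 / ((J : ℝ) + 1)) (by positivity)
          linarith
        nlinarith [mul_le_mul_of_nonneg_left h7 (by positivity : (0 : ℝ) ≤ c / 2)]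
      · have h4 : (0 : ℝ) ≤ ∑ p ∈ cls M a T (2 ^ (J + 1)), (1 : ℝ) / p :=
          Finset.sum_nonneg fun p _ => by positivity
        refine le_trans ?_ h4
        have h5 : Real.log (((J + 1 : ℕ) : ℝ) + 1) ≤ Real.log ((j0 : ℝ) + 1) := by
          apply Real.log_le_log (by positivity)
          push_cast
          have : ((J : ℝ) + 1) ≤ j0 := by exact_mod_cast (by omega : J + 1 ≤ j0)
          linarith
        exact mul_nonpos_of_nonneg_of_nonpos (by positivity) (by linarith)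
  have h4 : ∑ p ∈ cls M a T (2 ^ J), (1 : ℝ) / p ≤ ∑ p ∈ cls M a T N, (1 : ℝ) / p := by
    apply Finset.sum_le_sum_of_subset_of_nonneg
    · intro p hp
      simp only [cls, Finset.mem_filter, Finset.mem_Icc] at hp ⊢
      exact ⟨⟨hp.1.1, by omega⟩, hp.2⟩
    · intro p _ _
      positivity
  have h5 := h3 J
  have h6 := mul_le_mul_of_nonneg_left h1 (by positivity : (0 : ℝ) ≤ c / 2)
  nlinarith

/-- Mertens' upper bound, over `Finset.Icc 1 N` -/
theorem mertens_upper : ∃ C : ℝ, ∀ N : ℕ, 2 ≤ N →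
    ∑ p ∈ (Finset.Icc 1 N).filter Nat.Prime, (1 : ℝ) / p ≤ Real.log (Real.log N) + C := by
  obtain ⟨C, hC, h⟩ := Pool.Agent.Helper44.sum_primesUpTo_bounds
  refine ⟨C, fun N hN => ?_⟩
  have h1 := (abs_le.mp (h N (by exact_mod_cast hN))).2
  have h2 : Pool.Agent.Helper44.primesUpTo (N : ℝ) = (Finset.Icc 1 N).filter Nat.Prime := by
    unfold Pool.Agent.Helper44.primesUpTo
    rw [Nat.floor_natCast]
    rfl
  rw [h2] at h1
  linarith

/-- the exponential sum over primes -/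
theorem exp_prime_sum_le {κ : ℝ} (hκ : 0 < κ) {M a : ℕ} (hM : 0 < M) (ha : Nat.Coprime a M)
    (T : ℕ) : ∃ C δ : ℝ, 0 < C ∧ 0 < δ ∧ ∀ g : ℕ → ℝ, (∀ p, p.Prime → 0 ≤ g p ∧ g p ≤ 1) →
      (∀ p, p.Prime → T < p → p % M = a % M → g p ≤ 1 - κ) → ∀ N : ℕ, 2 ≤ N →
        Real.exp (∑ p ∈ (Finset.Icc 1 N).filter Nat.Prime, g p / p) ≤
          C * Real.log N * Real.log N ^ (-δ) := by
  obtain ⟨c, C1, hc, h1⟩ := mertens_class hM ha T
  obtain ⟨C2, h2⟩ := mertens_upper
  refine ⟨Real.exp (C2 + κ * C1), κ * c, Real.exp_pos _, by positivity, fun g hg hgT N hN => ?_⟩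
  have hlogN : 0 < Real.log N := Real.log_pos (by exact_mod_cast (by omega : 1 < N))
  have hsub : cls M a T N ⊆ (Finset.Icc 1 N).filter Nat.Prime := by
    intro p hp
    simp only [cls, Finset.mem_filter] at hp ⊢
    exact ⟨hp.1, hp.2.1⟩
  have h3 : ∑ p ∈ (Finset.Icc 1 N).filter Nat.Prime, g p / p ≤
      ∑ p ∈ (Finset.Icc 1 N).filter Nat.Prime, (1 : ℝ) / p -
        κ * ∑ p ∈ cls M a T N, (1 : ℝ) / p := by
    rw [Finset.mul_sum, ← Finset.sum_sdiff hsub, ← Finset.sum_sdiff hsub, add_sub_assoc,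
      ← Finset.sum_sub_distrib]
    apply add_le_add
    · apply Finset.sum_le_sum
      intro p hp
      simp only [Finset.mem_sdiff, Finset.mem_filter] at hp
      have hp0 : (0 : ℝ) < p := by exact_mod_cast hp.1.2.pos
      exact div_le_div_of_nonneg_right (hg p hp.1.2).2 hp0.le
    · apply Finset.sum_le_sum
      intro p hp
      simp only [cls, Finset.mem_filter] at hp
      have hp0 : (0 : ℝ) < p := by exact_mod_cast hp.2.1.pos
      have h4 := hgT p hp.2.1 hp.2.2.1 hp.2.2.2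
      rw [mul_one_div, ← sub_div]
      exact div_le_div_of_nonneg_right h4 hp0.le
  have h4 := h1 N hN
  have h5 := h2 N hN
  have h6 : ∑ p ∈ (Finset.Icc 1 N).filter Nat.Prime, g p / p ≤
      (C2 + κ * C1) + Real.log (Real.log N) + Real.log (Real.log N) * (-(κ * c)) := by
    have h7 := mul_le_mul_of_nonneg_left h4 hκ.le
    nlinarith
  calc Real.exp (∑ p ∈ (Finset.Icc 1 N).filter Nat.Prime, g p / p)
      ≤ Real.exp ((C2 + κ * C1) + Real.log (Real.log N) + Real.log (Real.log N) * (-(κ * c))) :=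
        Real.exp_le_exp.mpr h6
    _ = Real.exp (C2 + κ * C1) * Real.log N * Real.log N ^ (-(κ * c)) := by
        rw [Real.exp_add, Real.exp_add, Real.exp_log hlogN, Real.rpow_def_of_pos hlogN]

theorem sum_mult_le {κ : ℝ} (hκ : 0 < κ) {M a : ℕ} (hM : 0 < M) (ha : Nat.Coprime a M) (T : ℕ) :
    ∃ C δ : ℝ, 0 < C ∧ 0 < δ ∧ ∀ g : ℕ → ℝ, (∀ p, p.Prime → 0 ≤ g p ∧ g p ≤ 1) →
      (∀ p, p.Prime → T < p → p % M = a % M → g p ≤ 1 - κ) → ∀ N : ℕ, 2 ≤ N →
        ∑ m ∈ (Finset.Icc 1 N).filter Squarefree, ∏ p ∈ m.primeFactors, g p ≤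
          C * N * Real.log N ^ (-δ) := by
  obtain ⟨C1, δ, hC1, hδ, h1⟩ := exp_prime_sum_le hκ hM ha T
  obtain ⟨C2, hC2, h2⟩ := Pool.Agent.Helper13.TW.wirs
  refine ⟨C2 * C1, δ, by positivity, hδ, fun g hg hgT N hN => ?_⟩
  have hlogN : 0 < Real.log N := Real.log_pos (by exact_mod_cast (by omega : 1 < N))
  refine (h2 g hg N hN).trans ?_
  have h3 := h1 g hg hgT N hN
  calc C2 * N / Real.log N * Real.exp (∑ p ∈ (Finset.Icc 1 N).filter Nat.Prime, g p / p)
      ≤ C2 * N / Real.log N * (C1 * Real.log N * Real.log N ^ (-δ)) := by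
        apply mul_le_mul_of_nonneg_left h3 (by positivity)
    _ = C2 * C1 * N * Real.log N ^ (-δ) := by
        field_simp

end Pool.Agent.Helper94.TW
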