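import Pool.Agent.Helper13.TW.Wirs
import Pool.Agent.Helper44.MertensProd

/-!
# Mean values of non-negative multiplicative functions: the form with a bound for the prime sum

`mult_bound2`: `∑_{p ≤ x} g p / p ≤ (1 - δ) log log x + K` gives `∑ ≤ C Y (log Y) ^ (-δ)`.
`sum_inv_upper`: Mertens, `∑_{p ≤ x} 1 / p ≤ log log x + C`.
`prime_sum_le`: the prime sum of `∑ a ∈ L, c * [¬ P a p]` if each `P a` has lower density `κ₀`.
-/

set_option autoImplicit false

open Finset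

namespace Pool.Agent.Helper94.TW

/-- Mertens' upper bound, over `Finset.Icc 1 N` -/
theorem sum_inv_upper : ∃ C : ℝ, ∀ N : ℕ, 2 ≤ N →
    ∑ p ∈ (Finset.Icc 1 N).filter Nat.Prime, (1 : ℝ) / p ≤ Real.log (Real.log N) + C := by
  obtain ⟨C, hC, h⟩ := Pool.Agent.Helper44.sum_primesUpTo_bounds
  refine ⟨C, fun N hN => ?_⟩
  have h1 := (abs_le.mp (h N (by exact_mod_cast hN))).2
  have h2 : Pool.Agent.Helper44.primesUpTo (N : ℝ) = (Finset.Icc 1 N).filter Nat.Prime := by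
    unfold Pool.Agent.Helper44.primesUpTo
    rw [Nat.floor_natCast]
    rfl
  rw [h2] at h1
  linarith

/-- the mean value bound, uniform in `g` -/
theorem mult_bound2 (δ K : ℝ) : ∃ C : ℝ, 0 < C ∧ ∀ g : ℕ → ℝ,
    (∀ p, p.Prime → 0 ≤ g p ∧ g p ≤ 1) →
    (∀ x : ℕ, 2 ≤ x → ∑ p ∈ (Finset.Icc 1 x).filter Nat.Prime, g p / p ≤
      (1 - δ) * Real.log (Real.log x) + K) → ∀ Y : ℕ, 2 ≤ Y →
      ∑ m ∈ (Finset.Icc 1 Y).filter Squarefree, ∏ p ∈ m.primeFactors, g p ≤
        C * Y * Real.log Y ^ (-δ) := by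
  obtain ⟨C2, hC2, h2⟩ := Pool.Agent.Helper13.TW.wirs
  refine ⟨C2 * Real.exp K, by positivity, fun g hg hK Y hY => ?_⟩
  have hlogN : 0 < Real.log Y := Real.log_pos (by exact_mod_cast (by omega : 1 < Y))
  refine (h2 g hg Y hY).trans ?_
  have h3 : Real.exp (∑ p ∈ (Finset.Icc 1 Y).filter Nat.Prime, g p / p) ≤
      Real.log Y * Real.log Y ^ (-δ) * Real.exp K := by
    calc Real.exp (∑ p ∈ (Finset.Icc 1 Y).filter Nat.Prime, g p / p)
        ≤ Real.exp (Real.log (Real.log Y) + Real.log (Real.log Y) * (-δ) + K) := by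
          apply Real.exp_le_exp.mpr
          have := hK Y hY
          linarith
      _ = Real.log Y * Real.log Y ^ (-δ) * Real.exp K := by
          rw [Real.exp_add, Real.exp_add, Real.exp_log hlogN, Real.rpow_def_of_pos hlogN]
  calc C2 * Y / Real.log Y * Real.exp (∑ p ∈ (Finset.Icc 1 Y).filter Nat.Prime, g p / p)
      ≤ C2 * Y / Real.log Y * (Real.log Y * Real.log Y ^ (-δ) * Real.exp K) := by
        apply mul_le_mul_of_nonneg_left h3 (by positivity)
    _ = C2 * Real.exp K * Y * Real.log Y ^ (-δ) := by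
        field_simp

open Classical in
/-- One label: if `P` has lower density `κ₀` in the sense of Mertens, the primes outside `P` have
upper density `1 - κ₀`. -/
theorem compl_sum_le (κ₀ K : ℝ) (P : ℕ → Prop)
    (hP : ∀ x : ℕ, 2 ≤ x → κ₀ * Real.log (Real.log x) - K ≤
      ∑ p ∈ (Finset.Icc 1 x).filter (fun p => p.Prime ∧ P p), (1 : ℝ) / p) :
    ∃ K' : ℝ, ∀ x : ℕ, 2 ≤ x →
      ∑ p ∈ (Finset.Icc 1 x).filter Nat.Prime, (if P p then 0 else (1 : ℝ)) / p ≤
        (1 - κ₀) * Real.log (Real.log x) + K' := by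
  obtain ⟨C, hC⟩ := sum_inv_upper
  refine ⟨C + K, fun x hx => ?_⟩
  have h1 := hC x hx
  have h2 := hP x hx
  have h3 : ∑ p ∈ (Finset.Icc 1 x).filter Nat.Prime, (1 : ℝ) / p =
      ∑ p ∈ (Finset.Icc 1 x).filter Nat.Prime, (if P p then 0 else (1 : ℝ)) / p +
      ∑ p ∈ (Finset.Icc 1 x).filter (fun p => p.Prime ∧ P p), (1 : ℝ) / p := by
    rw [← Finset.filter_filter, Finset.sum_filter (s := (Finset.Icc 1 x).filter Nat.Prime),
      ← Finset.sum_add_distrib]
    apply Finset.sum_congr rfl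
    intro p _
    split_ifs <;> simp
  linarith

open Classical in
/-- Several labels: `g = c ∑ a ∈ L, [¬ P a]` with `c |L| ≤ 1`. -/
theorem labels_sum_le {ι : Type} (κ₀ : ℝ) (hκ : κ₀ ≤ 1) (P : ι → ℕ → Prop) (L : Finset ι)
    (c : ℝ) (hc : 0 ≤ c) (hcL : c * L.card ≤ 1)
    (hP : ∀ a, ∃ K : ℝ, ∀ x : ℕ, 2 ≤ x → κ₀ * Real.log (Real.log x) - K ≤
      ∑ p ∈ (Finset.Icc 1 x).filter (fun p => p.Prime ∧ P a p), (1 : ℝ) / p) :
    ∃ K' : ℝ, ∀ g : ℕ → ℝ, (∀ p, p.Prime → g p ≤ ∑ a ∈ L, if P a p then 0 else c) →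
      ∀ x : ℕ, 2 ≤ x → ∑ p ∈ (Finset.Icc 1 x).filter Nat.Prime, g p / p ≤
        (1 - κ₀) * Real.log (Real.log x) + K' := by
  have h1 : ∀ a, ∃ K' : ℝ, ∀ x : ℕ, 2 ≤ x →
      ∑ p ∈ (Finset.Icc 1 x).filter Nat.Prime, (if P a p then 0 else (1 : ℝ)) / p ≤
        (1 - κ₀) * Real.log (Real.log x) + K' := by
    intro a
    obtain ⟨K, hK⟩ := hP a
    exact compl_sum_le κ₀ K (P a) hK
  choose K' hK' using h1
  -- `log log x` is bounded below
  set ℓ : ℝ := Real.log (Real.log 2) with hℓ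
  have hl : ∀ x : ℕ, 2 ≤ x → ℓ ≤ Real.log (Real.log x) := by
    intro x hx
    apply Real.log_le_log (Real.log_pos (by norm_num))
    apply Real.log_le_log (by norm_num)
    exact_mod_cast hx
  refine ⟨c * ∑ a ∈ L, K' a + (1 - κ₀) * |ℓ|, fun g hg x hx => ?_⟩
  have h2 : ∑ p ∈ (Finset.Icc 1 x).filter Nat.Prime, g p / p ≤
      c * ∑ a ∈ L, ∑ p ∈ (Finset.Icc 1 x).filter Nat.Prime,
        (if P a p then 0 else (1 : ℝ)) / p := by
    rw [Finset.sum_comm, Finset.mul_sum]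
    apply Finset.sum_le_sum
    intro p hp
    have hpp := (Finset.mem_filter.mp hp).2
    have hp0 : (0 : ℝ) < p := by exact_mod_cast hpp.pos
    rw [← Finset.sum_div, ← mul_div_assoc]
    apply div_le_div_of_nonneg_right _ hp0.le
    refine (hg p hpp).trans (le_of_eq ?_)
    rw [Finset.mul_sum]
    apply Finset.sum_congr rfl
    intro a _
    split_ifs <;> simp
  have h3 : c * ∑ a ∈ L, ∑ p ∈ (Finset.Icc 1 x).filter Nat.Prime,
      (if P a p then 0 else (1 : ℝ)) / p ≤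
      c * ∑ a ∈ L, ((1 - κ₀) * Real.log (Real.log x) + K' a) := by
    apply mul_le_mul_of_nonneg_left _ hc
    apply Finset.sum_le_sum
    intro a _
    exact hK' a x hx
  rw [Finset.sum_add_distrib, Finset.sum_const, nsmul_eq_mul, mul_add] at h3
  have h4 : c * ((L.card : ℝ) * ((1 - κ₀) * Real.log (Real.log x))) ≤
      (1 - κ₀) * Real.log (Real.log x) + (1 - κ₀) * |ℓ| := by
    have h5 : 0 ≤ Real.log (Real.log x) + |ℓ| := by
      have := hl x hx
      have := neg_abs_le ℓ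
      linarith
    have h6 : 0 ≤ (1 - κ₀) * (Real.log (Real.log x) + |ℓ|) := mul_nonneg (by linarith) h5
    have h7 : 0 ≤ c * (L.card : ℝ) := by positivity
    have h8 : 0 ≤ (1 - κ₀) * |ℓ| := mul_nonneg (by linarith) (abs_nonneg _)
    nlinarith [mul_le_mul_of_nonneg_right hcL h6, mul_nonneg h7 h8]
  linarith

end Pool.Agent.Helper94.TW
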