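import Pool.Agent.Helper36.TW.CaseII
import Pool.Agent.Helper94.TW.Mult

/-!
# Project TW (MP_2ae8fe_ag): the mean value bound in the form of `Helper36.TW.MultBound`
-/

set_option autoImplicit false

namespace Pool.Agent.Helper94.TW

theorem mult_bound : ∀ (κ : ℝ) (M a T : ℕ), 0 < κ → 0 < M → Nat.Coprime a M →
    Pool.Agent.Helper36.TW.MultBound κ M a T := by
  intro κ M a T hκ hM ha
  obtain ⟨C, δ, hC, hδ, h⟩ := sum_mult_le hκ hM ha T
  refine ⟨C, δ, hC, hδ, fun g h0 h1 hT Y hY => ?_⟩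
  have h2 := h g (fun p hp => ⟨h0 p, h1 p hp⟩) hT Y hY
  convert h2

end Pool.Agent.Helper94.TW
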